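import Mathlib
import Pool.Agent.P8H71.LegE

set_option autoImplicit false

/-!
# Legendre multiplier sequences of odd polynomial degree do not exist

`legendre n` is the Legendre polynomial `P_n` (Rodrigues formula), `OnlyRealZeros p` says that `p = 0`
or all complex zeros of `p` are real, and `IsLegendreMultiplier γ` says that `∑ γ_k a_k P_k` has only
real zeros whenever the finite sum `∑ a_k P_k` has only real zeros; see `Pool.Agent.P8H71.LegDef`.
-/

open Polynomial
open Pool.Agent.P8H71.Leg

namespace Pool.Agent.Results.MP_87bea5_an.OddDegree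

/-- (1) For every real polynomial `Q` of odd degree, `{Q(k)}` is not a Legendre multiplier sequence.
(2) More generally, if `{Q(k)}` is a Legendre multiplier sequence, then `Q(t) = A(t (t + 1))` for a
real polynomial `A`. (3) If `Q` is not of this form, then for all large `n` the operator
`P_k ↦ Q(k) P_k` maps `(1 + x)^n` to a polynomial with a non-real zero. -/
theorem result :
    (∀ Q : ℝ[X], Odd Q.natDegree → ¬ IsLegendreMultiplier (fun k => Q.eval (k : ℝ))) ∧
    (∀ Q : ℝ[X], IsLegendreMultiplier (fun k => Q.eval (k : ℝ)) →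
      ∃ A : ℝ[X], Q = A.comp (X * (X + 1))) ∧
    (∀ Q : ℝ[X], (¬ ∃ A : ℝ[X], Q = A.comp (X * (X + 1))) → ∃ N : ℕ, ∀ n : ℕ, N ≤ n →
      ∃ a : ℕ →₀ ℝ, (a.sum fun k c => C c * legendre k) = (1 + X) ^ n ∧
        ∃ z : ℂ, z.im ≠ 0 ∧
          aeval z (a.sum fun k c => C (Q.eval (k : ℝ) * c) * legendre k) = 0) := by
  refine ⟨fun Q hQ h => ?_, symmetric_of_multiplier, fun Q hQ => ?_⟩
  · exact (Nat.not_even_iff_odd.2 hQ) (even_natDegree_of_multiplier Q h)
  · obtain ⟨N, hN⟩ := Filter.eventually_atTop.1 (eventually_nonreal Q hQ)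
    refine ⟨N, fun n hn => ?_⟩
    obtain ⟨a, ha⟩ := exists_legendre_expansion n
    exact ⟨a, ha, hN n hn a ha⟩

end Pool.Agent.Results.MP_87bea5_an.OddDegree
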